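import Pool.Agent.Lib.MP_32d917_al_raag.K14

/-!
# MP_32d917_al : the isomorphism problem for groups commensurable with right-angled Artin groups

There is one algorithm which decides, for two finite presentations of groups which are commensurable
with right-angled Artin groups with finite outer automorphism group, whether the groups are
isomorphic.
-/

set_option autoImplicit false

namespace Pool.Agent.Results.MP_32d917_al.ArtinCommensurable

/-- The right-angled Artin group of the graph `Γ`: the generators are the vertices, and adjacent
vertices commute. -/
abbrev RAAG {V : Type} (Γ : SimpleGraph V) : Type :=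
  PresentedGroup {r : FreeGroup V | ∃ v w, Γ.Adj v w ∧
    r = FreeGroup.of v * FreeGroup.of w * (FreeGroup.of v)⁻¹ * (FreeGroup.of w)⁻¹}

/-- The outer automorphism group is finite: the inner automorphisms form a subgroup of finite index
of the automorphism group. -/
def FiniteOut (G : Type) [Group G] : Prop :=
  ((MulAut.conj : G →* MulAut G).range).FiniteIndex

/-- `G` is commensurable with the right-angled Artin group of some finite graph with at least two
vertices and with finite outer automorphism group: some subgroup of finite index of `G` is isomorphic
to a subgroup of finite index of this right-angled Artin group. -/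
def IsArtinCommensurable (G : Type) [Group G] : Prop :=
  ∃ (V : Type) (_ : Finite V) (Γ : SimpleGraph V) (H : Subgroup G) (H' : Subgroup (RAAG Γ)),
    (∃ a b : V, a ≠ b) ∧ FiniteOut (RAAG Γ) ∧ H.FiniteIndex ∧ H'.FiniteIndex ∧ Nonempty (H ≃* H')

/-- A finite presentation `(n, R)`: generators `x_0, ..., x_(n-1)` and a list `R` of relators,
each written as a list of letters `(i, true)` for `x_i` and `(i, false)` for its inverse. -/
abbrev Presentation : Type := ℕ × List (List (ℕ × Bool))

/-- The group defined by a finite presentation (generators of index at least `n` are killed). -/
abbrev Presentation.Grp (P : Presentation) : Type :=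
  PresentedGroup ({r | ∃ w ∈ P.2, r = FreeGroup.mk w} ∪ {r | ∃ i, P.1 ≤ i ∧ r = FreeGroup.of i})

/-- The isomorphism problem is solvable for groups commensurable with right-angled Artin groups
with finite outer automorphism group. -/
theorem result : ∃ f : Presentation × Presentation →. Bool, Partrec f ∧
    ∀ P Q : Presentation, IsArtinCommensurable P.Grp → IsArtinCommensurable Q.Grp →
      ∃ b ∈ f (P, Q), (b = true ↔ Nonempty (P.Grp ≃* Q.Grp)) :=
  RaagIso.finalC

end Pool.Agent.Results.MP_32d917_al.ArtinCommensurable
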