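import Pool.Agent.Lib.MP_32d917_al_bl.KF

/-!
# MP_32d917_al : the isomorphism problem for finite index subgroups of graph products over block graphs

There is one algorithm which decides, for two finite presentations of groups which are isomorphic to
subgroups of finite index of graph products of finitely generated free and free abelian groups over
finite connected graphs `Γ` with at least three vertices, glued along cut vertices from edges and from
graphs whose right-angled Artin group has a finite outer automorphism group (the groups over cut
vertices and over the ends of the edges being infinite cyclic), whether the groups are isomorphic.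
-/

set_option autoImplicit false

namespace Pool.Agent.Results.MP_32d917_al.BlockGraphProducts

/-- The right-angled Artin group of the graph `Γ`: the generators are the vertices, and adjacent
vertices commute. -/
abbrev RAAG {V : Type} (Γ : SimpleGraph V) : Type :=
  PresentedGroup {r : FreeGroup V | ∃ v w, Γ.Adj v w ∧
    r = FreeGroup.of v * FreeGroup.of w * (FreeGroup.of v)⁻¹ * (FreeGroup.of w)⁻¹}

/-- The outer automorphism group is finite: the inner automorphisms form a subgroup of finite index
of the automorphism group. -/
def FiniteOut (G : Type) [Group G] : Prop :=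
  ((MulAut.conj : G →* MulAut G).range).FiniteIndex

/-- The set `S` consists of two adjacent vertices. -/
def IsEdge {V : Type} (Γ : SimpleGraph V) (S : Set V) : Prop :=
  ∃ a b, Γ.Adj a b ∧ S = {a, b}

/-- The graph `Γ` is obtained from the induced graphs on the sets `B 0, ..., B (m - 1)` by gluing them
successively: every vertex and every edge is in one of the sets, and every set except the first has
exactly one vertex in common with the union of the preceding ones. Each of the sets is an edge, or it
has at least two elements and the right-angled Artin group of its induced graph has a finite outer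
automorphism group. -/
def Glued {V : Type} (Γ : SimpleGraph V) {m : ℕ} (B : Fin m → Set V) : Prop :=
  (∀ v, ∃ i, v ∈ B i) ∧
  (∀ a b, Γ.Adj a b → ∃ i, a ∈ B i ∧ b ∈ B i) ∧
  (∀ i, (∃ j, j < i) → ∃! v, v ∈ B i ∧ ∃ j, j < i ∧ v ∈ B j) ∧
  ∀ i, IsEdge Γ (B i) ∨ ((∃ a b : B i, a ≠ b) ∧ FiniteOut (RAAG (Γ.induce (B i))))

/-- The graph `Λ` arises from the graph `Γ` by replacing every vertex `v` by a nonempty graph, the
fibre of `π` over `v`, which is complete or has no edges; vertices in different fibres are adjacent if
and only if the fibres belong to adjacent vertices of `Γ`. So the right-angled Artin group of `Λ` is the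
graph product over `Γ` of the groups of the fibres, which are free abelian or free. -/
def BlowUp {V W : Type} (Γ : SimpleGraph V) (Λ : SimpleGraph W) (π : W → V) : Prop :=
  Function.Surjective π ∧
  (∀ a b, π a ≠ π b → (Λ.Adj a b ↔ Γ.Adj (π a) (π b))) ∧
  ∀ v, (∀ a b, π a = v → π b = v → a ≠ b → Λ.Adj a b) ∨
    (∀ a b, π a = v → π b = v → ¬ Λ.Adj a b)

/-- `G` is isomorphic to a subgroup of finite index of a graph product of finitely generated free and
free abelian groups over a finite graph `Γ` with at least three vertices, glued from the sets `B i`;
the vertex groups of the vertices which are in two of the sets, or in one of the edges, are infinite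
cyclic. -/
def IsBlockProductSubgroup (G : Type) [Group G] : Prop :=
  ∃ (V W : Type) (_ : Finite V) (_ : Finite W) (Γ : SimpleGraph V) (Λ : SimpleGraph W)
    (π : W → V) (m : ℕ) (B : Fin m → Set V) (H : Subgroup (RAAG Λ)),
    (∃ a b c : V, a ≠ b ∧ a ≠ c ∧ b ≠ c) ∧ Glued Γ B ∧ BlowUp Γ Λ π ∧
    (∀ v, ((∃ i j, i ≠ j ∧ v ∈ B i ∧ v ∈ B j) ∨ ∃ i, IsEdge Γ (B i) ∧ v ∈ B i) →
      ∀ a b, π a = v → π b = v → a = b) ∧
    H.FiniteIndex ∧ Nonempty (G ≃* H)

/-- A finite presentation `(n, R)`: generators `x_0, ..., x_(n-1)` and a list `R` of relators,
each written as a list of letters `(i, true)` for `x_i` and `(i, false)` for its inverse. -/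
abbrev Presentation : Type := ℕ × List (List (ℕ × Bool))

/-- The group defined by a finite presentation (generators of index at least `n` are killed). -/
abbrev Presentation.Grp (P : Presentation) : Type :=
  PresentedGroup ({r | ∃ w ∈ P.2, r = FreeGroup.mk w} ∪ {r | ∃ i, P.1 ≤ i ∧ r = FreeGroup.of i})

theorem cls (G : Type) [Group G] (h : IsBlockProductSubgroup G) : RaagBL.IsClsB G := by
  obtain ⟨V, W, h1, h2, Γ, Λ, π, m, B, H, h3, ⟨g1, g2, g3, g4⟩, ⟨b1, b2, b3⟩, h4, h5, h6⟩ := h
  refine ⟨V, W, h1, h2, Γ, Λ, π, m, B, H, ⟨⟨g1, g2, fun i => ?_, g3⟩, ⟨b1, b2, b3⟩, h4, h3⟩, h5, h6⟩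
  rcases g4 i with k | ⟨k, l⟩
  · exact Or.inl k
  · exact Or.inr ⟨k, RaagIso.noDom_of_out l, RaagIso.noSep_of_out l⟩

/-- The isomorphism problem is solvable for subgroups of finite index of graph products of finitely
generated free and free abelian groups over graphs glued from edges and from graphs whose right-angled
Artin group has a finite outer automorphism group. -/
theorem result : ∃ f : Presentation × Presentation →. Bool, Partrec f ∧
    ∀ P Q : Presentation, IsBlockProductSubgroup P.Grp → IsBlockProductSubgroup Q.Grp →
      ∃ b ∈ f (P, Q), (b = true ↔ Nonempty (P.Grp ≃* Q.Grp)) := by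
  obtain ⟨f, hf, h⟩ := RaagBL.finalB
  exact ⟨f, hf, fun P Q hP hQ => h P Q (cls _ hP) (cls _ hQ)⟩

end Pool.Agent.Results.MP_32d917_al.BlockGraphProducts
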