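import Pool.Agent.Lib.MP_32d917_al_vt.F38
import Pool.Agent.Lib.MP_32d917_al_vt.I90

/-!
# MP_32d917_al : the isomorphism problem for geometric groups of labelled median graphs

There is one algorithm which decides, for two finite presentations of groups which act properly and
cocompactly on connected median graphs (1-skeleta of CAT(0) cube complexes) with edges labelled by
the vertices of a finite graph `Γ`, whether the groups are isomorphic. The graph `Γ` is not given,
and may be different for the two groups; the groups may permute the labels and may have torsion. The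
vertices of `Γ` which are not adjacent to all others span a graph whose right-angled Artin group has
a finite outer automorphism group; the panels (connected pieces with one label) are infinite trees.

Examples: groups commensurable with right-angled Artin groups (at least two vertices) with finite
outer automorphism group and star-rigid graph (`commensurable_mem`), groups acting properly and
cocompactly on finite products of bushy trees (`forest_mem`).
-/

set_option autoImplicit false

namespace Pool.Agent.Results.MP_32d917_al.LabelledMedianGraphs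

/-- The right-angled Artin group of the graph `Γ`: the generators are the vertices, and adjacent
vertices commute. -/
abbrev RAAG {V : Type} (Γ : SimpleGraph V) : Type :=
  PresentedGroup {r : FreeGroup V | ∃ v w, Γ.Adj v w ∧
    r = FreeGroup.of v * FreeGroup.of w * (FreeGroup.of v)⁻¹ * (FreeGroup.of w)⁻¹}

/-- The outer automorphism group is finite: the inner automorphisms form a subgroup of finite index
of the automorphism group. -/
def FiniteOut (G : Type) [Group G] : Prop :=
  ((MulAut.conj : G →* MulAut G).range).FiniteIndex

section

variable {ι P : Type}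

/-- The vertex `i` of the graph `Γ` is central: it is adjacent to all other vertices. -/
def Central (Γ : SimpleGraph ι) (i : ι) : Prop := ∀ j, j ≠ i → Γ.Adj i j

/-- The vertex `m` lies on a geodesic from `x` to `y` in the graph `X`. -/
def Between (X : SimpleGraph P) (x m y : P) : Prop :=
  X.dist x m + X.dist m y = X.dist x y

/-- A connected median graph: for any three vertices there is exactly one vertex which lies on
geodesics between any two of them. -/
structure IsMedianGraph (X : SimpleGraph P) : Prop where
  connected : X.Connected
  median : ∀ x y z, ∃! m, Between X x m y ∧ Between X y m z ∧ Between X x m z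

/-- The label `i` occurs at the vertex `x`: there is an edge with this label at `x`. -/
def Occurs (X : SimpleGraph P) (lab : P → P → ι) (x : P) (i : ι) : Prop :=
  ∃ y, X.Adj x y ∧ lab x y = i

/-- The panel of label `i` at the vertex `x`: all vertices which are joined to `x` by a path all
whose edges have the label `i`. -/
def Panel (X : SimpleGraph P) (lab : P → P → ι) (i : ι) (x : P) : Set P :=
  {y | Relation.ReflTransGen (fun a b => X.Adj a b ∧ lab a b = i) x y}

/-- A labelling of the edges of the graph `X` by vertices of the graph `Γ`; `N x` is the set of the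
labels which are called internal at the vertex `x`.
* `square`: opposite edges of a square have the same label;
* `corner`: two edges at a vertex span a square if and only if their labels are adjacent in `Γ`;
* `clique`: the internal labels at a vertex are pairwise adjacent;
* `occurs`: a label occurs at a vertex if and only if it is equal or adjacent to every internal
  label at this vertex;
* `edge`: the ends of an edge have the same internal labels, except perhaps for the label of the
  edge;
* `panel`: the panels are infinite (they are trees, by `corner`);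
* `chamber`: if the label `i` is not central and occurs at `x`, then the panel of label `i` at `x`
  contains a vertex at which `i` is not internal;
* `two`, `three`: if the label `i` is central, there are at least two edges of label `i` at every
  vertex, and at least three at some vertex. -/
structure IsLabelling (Γ : SimpleGraph ι) (X : SimpleGraph P) (lab : P → P → ι)
    (N : P → Set ι) : Prop where
  symm : ∀ x y, X.Adj x y → lab y x = lab x y
  square : ∀ x y z w, X.Adj x y → X.Adj x z → X.Adj y w → X.Adj z w → y ≠ z → x ≠ w →
    lab z w = lab x y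
  corner : ∀ x y z, X.Adj x y → X.Adj x z → y ≠ z →
    ((∃ w, w ≠ x ∧ X.Adj y w ∧ X.Adj z w) ↔ Γ.Adj (lab x y) (lab x z))
  clique : ∀ x v w, v ∈ N x → w ∈ N x → v ≠ w → Γ.Adj v w
  occurs : ∀ x i, Occurs X lab x i ↔ ∀ v, v ∈ N x → i = v ∨ Γ.Adj v i
  edge : ∀ x y i, X.Adj x y → i ≠ lab x y → (i ∈ N y ↔ i ∈ N x)
  panel : ∀ x i, Occurs X lab x i → (Panel X lab i x).Infinite
  chamber : ∀ x i, ¬ Central Γ i → Occurs X lab x i → ∃ y, y ∈ Panel X lab i x ∧ i ∉ N y
  two : ∀ i, Central Γ i → ∀ x, ∃ y z, y ≠ z ∧ X.Adj x y ∧ X.Adj x z ∧ lab x y = i ∧ lab x z = i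
  three : ∀ i, Central Γ i → ∃ x y z w, y ≠ z ∧ z ≠ w ∧ y ≠ w ∧ X.Adj x y ∧ X.Adj x z ∧
    X.Adj x w ∧ lab x y = i ∧ lab x z = i ∧ lab x w = i

/-- The group `G` acts properly and cocompactly on the labelled graph `X`, permuting the labels:
the graph is locally finite, the stabilizers of the vertices are finite, and there are finitely
many orbits of vertices. -/
structure ActsGeometrically (G : Type) [Group G] [MulAction G P] [MulAction G ι]
    (Γ : SimpleGraph ι) (X : SimpleGraph P) (lab : P → P → ι) (N : P → Set ι) : Prop where
  adj : ∀ (g : G) x y, X.Adj x y → X.Adj (g • x) (g • y)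
  label : ∀ (g : G) x y, X.Adj x y → lab (g • x) (g • y) = g • lab x y
  graph : ∀ (g : G) i j, Γ.Adj (g • i) (g • j) ↔ Γ.Adj i j
  internal : ∀ (g : G) x i, g • i ∈ N (g • x) ↔ i ∈ N x
  locallyFinite : ∀ x, (X.neighborSet x).Finite
  proper : ∀ x : P, {g : G | g • x = x}.Finite
  cocompact : ∃ F : Finset P, ∀ x : P, ∃ g : G, g • x ∈ F

end

/-- The class of groups: `G` acts properly and cocompactly on a connected median graph whose edges
are labelled by the vertices of a finite nonempty graph `Γ`, such that the right-angled Artin group
of the graph spanned by the vertices of `Γ` which are not central has a finite outer automorphism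
group. -/
def IsLabelledGroup (G : Type) [Group G] : Prop :=
  ∃ (ι P : Type) (_ : Finite ι) (_ : Nonempty ι) (_ : MulAction G P) (_ : MulAction G ι)
    (Γ : SimpleGraph ι) (X : SimpleGraph P) (lab : P → P → ι) (N : P → Set ι),
    FiniteOut (RAAG (Γ.induce {i | ¬ Central Γ i})) ∧ IsMedianGraph X ∧ IsLabelling Γ X lab N ∧
      ActsGeometrically G Γ X lab N

/-- A finite presentation `(n, R)`: generators `x_0, ..., x_(n-1)` and a list `R` of relators,
each written as a list of letters `(i, true)` for `x_i` and `(i, false)` for its inverse. -/
abbrev Presentation : Type := ℕ × List (List (ℕ × Bool))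

/-- The group defined by a finite presentation (generators of index at least `n` are killed). -/
abbrev Presentation.Grp (P : Presentation) : Type :=
  PresentedGroup ({r | ∃ w ∈ P.2, r = FreeGroup.mk w} ∪ {r | ∃ i, P.1 ≤ i ∧ r = FreeGroup.of i})

section

open RaagIso

variable {ι : Type} {Γ : SimpleGraph ι}

theorem central_iff (i : ι) : VTB.CL Γ i ↔ Central Γ i := by
  constructor
  · intro h j hj
    rcases h j with h1 | h1
    · exact absurd h1 hj
    · exact h1
  · intro h j
    by_cases hj : j = i
    · exact Or.inl hj
    · exact Or.inr (h j hj)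

theorem dom_of (h : NoDom (Γ.induce {i | ¬ Central Γ i})) :
    ∀ v w, v ≠ w → ¬ VTB.CL Γ w → ∃ u, Γ.Adj v u ∧ u ∉ st Γ w := by
  intro v w hvw hw
  have hwc : ¬ Central Γ w := fun hc => hw ((central_iff w).2 hc)
  by_cases hv : Central Γ v
  · have hw' : ¬ ∀ j, j ∈ st Γ w := hw
    push Not at hw'
    obtain ⟨u, hu⟩ := hw'
    refine ⟨u, ?_, hu⟩
    apply hv u
    rintro rfl
    exact hu (Or.inr (hv w hvw.symm).symm)
  · obtain ⟨u, h1, h2⟩ := h ⟨v, hv⟩ ⟨w, hwc⟩ (fun he => hvw (congrArg Subtype.val he))
    refine ⟨u.1, h1, ?_⟩
    intro h3
    apply h2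
    rcases h3 with h3 | h3
    · exact Or.inl (Subtype.ext h3)
    · exact Or.inr h3

theorem sep_of (h : NoSep (Γ.induce {i | ¬ Central Γ i})) : NoSep Γ := by
  intro v K hK a b ha hav hbv
  have hout : ∀ c, c ∉ st Γ v → ¬ Central Γ c := by
    intro c hc hcc
    apply hc
    by_cases hcv : c = v
    · exact Or.inl hcv
    · exact Or.inr (hcc v (fun h => hcv h.symm)).symm
  have hvc : ¬ Central Γ v := by
    intro hc
    apply hav
    by_cases hcv : a = v
    · exact Or.inl hcv
    · exact Or.inr (hc a hcv)
  have hst : ∀ c : {i | ¬ Central Γ i}, c ∈ st (Γ.induce {i | ¬ Central Γ i}) ⟨v, hvc⟩ ↔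
      c.1 ∈ st Γ v := by
    intro c
    constructor
    · rintro (h1 | h1)
      · exact Or.inl (congrArg Subtype.val h1)
      · exact Or.inr h1
    · rintro (h1 | h1)
      · exact Or.inl (Subtype.ext h1)
      · exact Or.inr h1
  have h5 := h ⟨v, hvc⟩ {c | c.1 ∈ K} (by
    intro c d hc h1 h2 h3
    exact hK c.1 d.1 hc (fun h4 => h1 ((hst c).2 h4)) (fun h4 => h2 ((hst d).2 h4)) h3)
    ⟨a, hout a hav⟩ ⟨b, hout b hbv⟩ ha (fun h4 => hav ((hst _).1 h4))
    (fun h4 => hbv ((hst _).1 h4))
  exact h5

end

theorem isMed (G : Type) [Group G] (h : IsLabelledGroup G) : VTB.IsMed G := by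
  obtain ⟨ι, P, hι, hne, a1, a2, Γ, X, lab, N, hO, hm, hl, hg⟩ := h
  refine ⟨ι, P, hι, a1, a2, Γ, X, lab, fun x i => i ∈ N x ∨ Central Γ i, ?_⟩
  have hst : ∀ v i, i ∈ RaagIso.st Γ v ↔ i = v ∨ Γ.Adj v i := fun v i => Iff.rfl
  have hC : ∀ v i, Central Γ v → i ∈ RaagIso.st Γ v := fun v i h => (central_iff v).2 h i
  have hOc : ∀ x i, VTB.Oc Γ (fun x i => i ∈ N x ∨ Central Γ i) x i ↔
      ∀ v, v ∈ N x → i = v ∨ Γ.Adj v i := by
    intro x i
    constructor
    · intro h v hv
      exact h v (Or.inl hv)
    · rintro h v (hv | hv)
      · exact h v hv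
      · exact hC v i hv
  have hocc : ∀ x i, (∃ y, X.Adj x y ∧ lab x y = i) ↔
      VTB.Oc Γ (fun x i => i ∈ N x ∨ Central Γ i) x i := by
    intro x i
    rw [hOc]
    exact hl.occurs x i
  have hcl : ∀ x i, i ∈ N x → ∀ v, v ∈ N x → i = v ∨ Γ.Adj v i := by
    intro x i hi v hv
    by_cases h : i = v
    · exact Or.inl h
    · exact Or.inr (hl.clique x v i hv hi fun h' => h h'.symm)
  have hgc : ∀ (g : G) i, Central Γ (g • i) ↔ Central Γ i := by
    intro g i
    constructor
    · intro h j hj
      rw [← hg.graph g]
      exact h (g • j) (fun h' => hj (MulAction.injective g h'))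
    · intro h j hj
      have h1 := h (g⁻¹ • j) (fun h' => hj (by rw [← h', smul_inv_smul]))
      rw [← hg.graph g, smul_inv_smul] at h1
      exact h1
  exact {
    b := {
      conn := hm.connected
      med := hm.median
      symm := hl.symm
      par := hl.square
      sq := hl.corner
      occ := hocc
      nocc := by
        rintro x i (hi | hi)
        · rw [hOc]
          exact hcl x i hi
        · rw [hOc]
          intro v _
          by_cases h : v = i
          · exact Or.inl h.symm
          · exact Or.inr (hi v h).symm
      ntr := fun x y k h1 h2 => or_congr (hl.edge x y k h1 h2) Iff.rfl }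
    gg := ⟨dom_of (RaagIso.noDom_of_out hO), sep_of (RaagIso.noSep_of_out hO), hne⟩
    adj := hg.adj
    glab := hg.label
    gam := hg.graph
    gn := fun g x i => or_congr (hg.internal g x i) (hgc g i)
    loc := hg.locallyFinite
    cen := fun x i hi => Or.inr ((central_iff i).1 hi)
    out := by
      intro x i hc hi
      have hc' : ¬ Central Γ i := fun h => hc ((central_iff i).2 h)
      rcases hi with hi | hi
      · have h1 : Occurs X lab x i := (hl.occurs x i).2 (hcl x i hi)
        obtain ⟨y, h3, h4⟩ := hl.chamber x i hc' h1
        refine ⟨y, h3, ?_⟩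
        rintro (h5 | h5)
        · exact h4 h5
        · exact hc' h5
      · exact absurd hi hc'
    two := fun x i hi => hl.two i ((central_iff i).1 hi) x
    three := fun i hi => hl.three i ((central_iff i).1 hi)
    inf := fun x i hi => hl.panel x i ((hocc x i).2 hi)
    prop := hg.proper
    fin := hg.cocompact }

/-- labelled median graphs in the sense of the library give members of the class -/
theorem of_mlat {G : Type} [Group G] {ι P : Type} [Finite ι] [MulAction G P] [MulAction G ι]
    {Γ : SimpleGraph ι} {X : SimpleGraph P} {lab : P → P → ι} {N : P → ι → Prop}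
    (L : VTB.MLat G Γ X lab N) (hO : FiniteOut (RAAG (Γ.induce {i | ¬ Central Γ i}))) :
    IsLabelledGroup G := by
  refine ⟨ι, P, inferInstance, L.gg.ne, inferInstance, inferInstance, Γ, X, lab,
    fun x => {i | N x i}, hO, ⟨L.b.conn, L.b.med⟩, ?_, ⟨L.adj, L.glab, L.gam, L.gn, L.loc, L.prop,
    L.fin⟩⟩
  refine
    { symm := L.b.symm
      square := L.b.par
      corner := L.b.sq
      clique := ?_
      occurs := L.b.occ
      edge := L.b.ntr
      panel := fun x i h => L.inf x i ((L.b.occ x i).1 h)
      chamber := ?_
      two := fun i hi x => L.two x i ((central_iff i).2 hi)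
      three := fun i hi => L.three i ((central_iff i).2 hi) }
  · intro x v w hv hw hvw
    rcases L.b.nocc x w hw v hv with h | h
    · exact absurd h.symm hvw
    · exact h
  · intro x i hi _
    by_cases hx : N x i
    · obtain ⟨y, h1, h2⟩ := L.out x i (fun h => hi ((central_iff i).1 h)) hx
      exact ⟨y, h1, h2⟩
    · exact ⟨x, Relation.ReflTransGen.refl, hx⟩

/-- `T` is a point of the product of the components of the graph `S`: a set of vertices which
contains exactly one vertex of every connected component. -/
def IsPoint {V : Type} (S : SimpleGraph V) (T : Set V) : Prop :=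
  ∀ v, ∃! x, x ∈ T ∧ S.Reachable v x

/-- The group `G` acts by automorphisms on the forest `S` (vertex set `V`). Its connected
components are the factors of a product; there are finitely many of them, and at least one; they
may be permuted by `G`. They are locally finite, every vertex has at least two neighbours, and in
every component some vertex has at least three. The action of `G` on the vertices of the product of
the components has finite stabilizers and finitely many orbits. -/
structure ForestAction (G : Type) [Group G] {V : Type} [MulAction G V] (S : SimpleGraph V) :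
    Prop where
  adj : ∀ (g : G) (x y : V), S.Adj x y → S.Adj (g • x) (g • y)
  acyclic : S.IsAcyclic
  finiteComponents : Finite S.ConnectedComponent
  nonempty : Nonempty V
  locallyFinite : ∀ v, (S.neighborSet v).Finite
  two : ∀ v, ∃ x y, x ≠ y ∧ S.Adj v x ∧ S.Adj v y
  three : ∀ v, ∃ w x y z, S.Reachable v w ∧ x ≠ y ∧ y ≠ z ∧ x ≠ z ∧ S.Adj w x ∧ S.Adj w y ∧
    S.Adj w z
  proper : ∀ T : Set V, IsPoint S T → {g : G | (fun x => g • x) '' T = T}.Finite
  cofinite : ∃ Φ : Set (Set V), Φ.Finite ∧ ∀ T : Set V, IsPoint S T → ∃ g : G,
    (fun x => g • x) '' T ∈ Φ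

/-- `G` acts properly and cocompactly on a finite product of bushy trees. -/
def IsForestGroup (G : Type) [Group G] : Prop :=
  ∃ (V : Type) (_ : MulAction G V) (S : SimpleGraph V), ForestAction G S

/-- The class contains all groups acting properly and cocompactly on finite products of bushy
trees. -/
theorem forest_mem (G : Type) [Group G] (h : IsForestGroup G) : IsLabelledGroup G := by
  obtain ⟨V, _, S, h⟩ := h
  obtain ⟨n, P, _, _, X, lab, L⟩ := VTB.forest_mlat (G := G) ⟨V, _, S, ⟨h.adj, h.acyclic,
    h.finiteComponents, h.nonempty, h.locallyFinite, h.two, h.three, h.proper, h.cofinite⟩⟩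
  refine of_mlat L (VTB.fo_empty _ fun i hi => hi fun j hj => ?_)
  exact fun h' => hj h'.symm

/-- `Γ` is star-rigid: an automorphism which fixes a vertex and all its neighbours is the
identity. -/
def StarRigid {V : Type} (Γ : SimpleGraph V) : Prop :=
  ∀ (σ : Γ ≃g Γ) (v : V), σ v = v → (∀ w, Γ.Adj v w → σ w = w) → ∀ w, σ w = w

/-- `G` is commensurable with the right-angled Artin group of a finite star-rigid graph with at
least two vertices, which has a finite outer automorphism group. -/
def IsStarRigidCommensurable (G : Type) [Group G] : Prop :=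
  ∃ (V : Type) (_ : Finite V) (Γ : SimpleGraph V) (H : Subgroup G) (H' : Subgroup (RAAG Γ)),
    (∃ a b : V, a ≠ b) ∧ FiniteOut (RAAG Γ) ∧ StarRigid Γ ∧ H.FiniteIndex ∧ H'.FiniteIndex ∧
      Nonempty (H ≃* H')

/-- The class contains all groups commensurable with right-angled Artin groups of star-rigid graphs
with finite outer automorphism group. -/
theorem commensurable_mem (G : Type) [Group G] (h : IsStarRigidCommensurable G) :
    IsLabelledGroup G := by
  obtain ⟨V, _, Γ, H, H', h2, hO, hs, hH, hH', ⟨e⟩⟩ := h
  have hs' : VTB.SRig Γ := by
    intro σ hσ v hv w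
    exact hs ⟨σ, fun {a b} => hσ a b⟩ v (hv v (Or.inl rfl)) (fun w hw => hv w (Or.inr hw)) w
  obtain ⟨ι', P, _, _, _, Γ', X, lab, N, L, hcl, ⟨f⟩⟩ :=
    VTB.comm_mlat Γ h2 hO hs' H H' hH hH' e
  exact of_mlat L (VTB.fo_ind f hO _ fun i hi => hcl i ((central_iff i).2 hi))

/-- The isomorphism problem is solvable for the groups of the class. -/
theorem result : ∃ f : Presentation × Presentation →. Bool, Partrec f ∧
    ∀ P Q : Presentation, IsLabelledGroup P.Grp → IsLabelledGroup Q.Grp →
      ∃ b ∈ f (P, Q), (b = true ↔ Nonempty (P.Grp ≃* Q.Grp)) := by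
  obtain ⟨f, hf, h⟩ := VTB.vfinal
  exact ⟨f, hf, fun P Q hP hQ => h P Q (isMed _ hP) (isMed _ hQ)⟩

end Pool.Agent.Results.MP_32d917_al.LabelledMedianGraphs
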