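import Pool.Agent.Lib.MP_32d917_al_vf.F09

/-!
# MP_32d917_al : the isomorphism problem for admissible groups with virtually free bases

There is one algorithm which decides, for two finite presentations of admissible groups (in the
sense of Croke and Kleiner) whose pieces are virtually `F × ℤ`, `F` free of rank at least two, whether
the groups are isomorphic.
-/

set_option autoImplicit false

namespace Pool.Agent.Results.MP_32d917_al.VirtuallyAdmissibleGroups

/-- `z` fixes `y` and commutes with all elements of a subgroup of finite index of the stabiliser of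
`y`. -/
def VirtuallyCentral (G : Type) [Group G] {V : Type} [MulAction G V] (y : V) (z : G) : Prop :=
  z • y = y ∧ ∃ H : Subgroup G, H ≤ MulAction.stabilizer G y ∧
    H.relIndex (MulAction.stabilizer G y) ≠ 0 ∧ ∀ h ∈ H, z * h = h * z

/-- `G` acts by automorphisms on the tree `T` preserving the set `Flat` of vertices (flats; the other
vertices are called pieces). Every edge joins a flat and a piece; there is a flat; every flat has at least
two neighbours; there are finitely many orbits of edges. The stabiliser of a piece has a subgroup of
finite index isomorphic to the product of a free group of finite rank `n ≥ 2` and an infinite cyclic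
group. The stabiliser of a flat is isomorphic to `ℤ × ℤ` and is contained in the stabilisers of the
adjacent pieces. For two different flats `x`, `x'` adjacent to one piece the intersection of the
stabilisers has infinite index in the stabiliser of `x'`. For two different pieces adjacent to one flat,
the only element which is virtually central in both stabilisers is `1`. -/
structure AdmissibleAction (G : Type) [Group G] {V : Type} [MulAction G V] (T : SimpleGraph V)
    (Flat : Set V) : Prop where
  tree : T.IsTree
  adj : ∀ (g : G) (x y : V), T.Adj x y → T.Adj (g • x) (g • y)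
  invariant : ∀ (g : G) (x : V), x ∈ Flat → g • x ∈ Flat
  bipartite : ∀ x y, T.Adj x y → (x ∈ Flat ↔ y ∉ Flat)
  exists_flat : ∃ x, x ∈ Flat
  two : ∀ x ∈ Flat, ∃ y z, y ≠ z ∧ T.Adj x y ∧ T.Adj x z
  cofinite : ∃ F : Finset (V × V), ∀ x y, T.Adj x y → ∃ g : G, (g • x, g • y) ∈ F
  piece : ∀ x, x ∉ Flat → ∃ n, 2 ≤ n ∧ ∃ H : Subgroup G, H ≤ MulAction.stabilizer G x ∧
    H.relIndex (MulAction.stabilizer G x) ≠ 0 ∧
    Nonempty ((FreeGroup (Fin n) × Multiplicative ℤ) ≃* H)
  flat : ∀ x ∈ Flat, Nonempty (Multiplicative (ℤ × ℤ) ≃* MulAction.stabilizer G x)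
  contained : ∀ x y, x ∈ Flat → T.Adj x y → MulAction.stabilizer G x ≤ MulAction.stabilizer G y
  different : ∀ x x' y, x ∈ Flat → x' ∈ Flat → x ≠ x' → T.Adj x y → T.Adj x' y →
    (MulAction.stabilizer G x).relIndex (MulAction.stabilizer G x') = 0
  transverse : ∀ x y y', x ∈ Flat → T.Adj x y → T.Adj x y' → y ≠ y' →
    ∀ z : G, VirtuallyCentral G y z → VirtuallyCentral G y' z → z = 1

/-- Admissible groups with virtually free bases. -/
def IsAdmissible (G : Type) [Group G] : Prop :=
  ∃ (V : Type) (_ : MulAction G V) (T : SimpleGraph V) (Flat : Set V), AdmissibleAction G T Flat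

/-- A finite presentation `(n, R)`: generators `x_0, ..., x_(n-1)` and a list `R` of relators,
each written as a list of letters `(i, true)` for `x_i` and `(i, false)` for its inverse. -/
abbrev Presentation : Type := ℕ × List (List (ℕ × Bool))

/-- The group defined by a finite presentation (generators of index at least `n` are killed). -/
abbrev Presentation.Grp (P : Presentation) : Type :=
  PresentedGroup ({r | ∃ w ∈ P.2, r = FreeGroup.mk w} ∪ {r | ∃ i, P.1 ≤ i ∧ r = FreeGroup.of i})

/-- The isomorphism problem is solvable for admissible groups with virtually free bases. -/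
theorem result : ∃ f : Presentation × Presentation →. Bool, Partrec f ∧
    ∀ P Q : Presentation, IsAdmissible P.Grp → IsAdmissible Q.Grp →
      ∃ b ∈ f (P, Q), (b = true ↔ Nonempty (P.Grp ≃* Q.Grp)) := by
  have key : ∀ {G : Type} [Group G], IsAdmissible G → VF.IsVAdm G := by
    rintro G _ ⟨V, _, T, Fl, h⟩
    exact ⟨V, _, T, Fl, ⟨h.tree, h.adj, h.invariant, h.bipartite, h.exists_flat, h.two, h.cofinite,
      h.piece, h.flat, h.contained, h.different, h.transverse⟩⟩
  obtain ⟨f, hf, h⟩ := VF.final
  exact ⟨f, hf, fun P Q hP hQ => h P Q (key hP) (key hQ)⟩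

end Pool.Agent.Results.MP_32d917_al.VirtuallyAdmissibleGroups
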